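import Pool.Agent.Lib.MP_5049a2_lc.Main

/-!
Maximin share approximation for additive valuations: `α*(n) → 1` as `n → ∞`.
-/

namespace Pool.Agent.Results.MP_5049a2_lc.LimitOne

open Finset Filter Topology

/-- The value, under the additive valuation `v`, of bundle `j` of the partition `P` of the goods
`Fin m` into `n` (possibly empty) bundles; good `g` lies in bundle `P g`. -/
def bundleValue {n m : ℕ} (v : Fin m → ℝ) (P : Fin m → Fin n) (j : Fin n) : ℝ :=
  ∑ g ∈ univ.filter (fun g => P g = j), v g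

/-- The maximin share: max over partitions into `n` bundles of the least bundle value. -/
noncomputable def mms (n : ℕ) {m : ℕ} (v : Fin m → ℝ) : ℝ :=
  ⨆ P : Fin m → Fin n, ⨅ j : Fin n, bundleValue v P j

/-- Every additive instance with `n` agents admits an `α`-MMS allocation. -/
def Admits (n : ℕ) (α : ℝ) : Prop :=
  ∀ (m : ℕ) (v : Fin n → Fin m → ℝ), (∀ i g, 0 ≤ v i g) →
    ∃ A : Fin m → Fin n, ∀ i, α * mms n (v i) ≤ bundleValue (v i) A i

/-- `α*(n)`: the supremum of the `α ∈ (0,1]` admitted by all instances with `n` agents. -/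
noncomputable def alphaStar (n : ℕ) : ℝ := sSup {α | 0 < α ∧ α ≤ 1 ∧ Admits n α}

theorem result : Tendsto alphaStar atTop (𝓝 1) := by
  have h1 : ∀ ε : ℝ, 0 < ε → ε < 1 → ∃ N : ℕ, ∀ n ≥ N, Admits n (1 - ε) := by
    intro ε hε hε1
    obtain ⟨N, hN⟩ := Pool.Agent.Lib.MP_5049a2_lc.main hε hε1.le
    refine ⟨N + 1, fun n hn m v hv => ?_⟩
    have : Nonempty (Fin n) := ⟨⟨0, by omega⟩⟩
    have hP := fun i => exists_eq_ciSup_of_finite
      (f := fun P : Fin m → Fin n => ⨅ j : Fin n, bundleValue (v i) P j)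
    choose P hP using hP
    refine hN n (by omega) m v hv (fun i => mms n (v i)) P fun i j => ?_
    show mms n (v i) ≤ bundleValue (v i) (P i) j
    unfold mms
    rw [← hP i]
    exact ciInf_le (Set.finite_range _).bddBelow j
  rw [Metric.tendsto_atTop]
  intro ε hε
  obtain ⟨N, hN⟩ := h1 (min (ε / 2) (1 / 2)) (by positivity)
    (lt_of_le_of_lt (min_le_right _ _) (by norm_num))
  refine ⟨N, fun n hn => ?_⟩
  have hmem : 1 - min (ε / 2) (1 / 2) ∈ {α | 0 < α ∧ α ≤ 1 ∧ Admits n α} :=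
    ⟨by linarith [min_le_right (ε / 2) (1 / 2)],
      by linarith [(by positivity : (0 : ℝ) < min (ε / 2) (1 / 2))], hN n hn⟩
  have h2 : 1 - min (ε / 2) (1 / 2) ≤ alphaStar n := le_csSup ⟨1, fun α hα => hα.2.1⟩ hmem
  have h3 : alphaStar n ≤ 1 := csSup_le ⟨_, hmem⟩ fun α hα => hα.2.1
  rw [Real.dist_eq, abs_lt]
  constructor <;> linarith [min_le_left (ε / 2) (1 / 2)]

end Pool.Agent.Results.MP_5049a2_lc.LimitOne
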