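import Pool.Agent.Lib.MP_5049a2_lc.H7Main

/-!
Maximin share approximation for additive valuations: a `(1 - 3 / r)`-MMS allocation exists as soon
as the number of agents is at least `(64 r) ^ (8000 r ^ 7)`.
-/

namespace Pool.Agent.Variants.MP_5049a2_lc.PolylogRate

open Finset

/-- The value, under the additive valuation `v`, of bundle `j` of the partition `P` of the goods
`Fin m` into `n` (possibly empty) bundles; good `g` lies in bundle `P g`. -/
def bundleValue {n m : ℕ} (v : Fin m → ℝ) (P : Fin m → Fin n) (j : Fin n) : ℝ :=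
  ∑ g ∈ univ.filter (fun g => P g = j), v g

/-- The maximin share: max over partitions into `n` bundles of the least bundle value. -/
noncomputable def mms (n : ℕ) {m : ℕ} (v : Fin m → ℝ) : ℝ :=
  ⨆ P : Fin m → Fin n, ⨅ j : Fin n, bundleValue v P j

theorem result (r n : ℕ) (hr : 1 ≤ r) (hn : (64 * r) ^ (8000 * r ^ 7) ≤ n)
    (m : ℕ) (v : Fin n → Fin m → ℝ) (hv : ∀ i g, 0 ≤ v i g) :
    ∃ A : Fin m → Fin n, ∀ i, (1 - 3 / (r : ℝ)) * mms n (v i) ≤ bundleValue (v i) A i := by
  have hn0 : 0 < n := lt_of_lt_of_le (by positivity) hn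
  have : Nonempty (Fin n) := ⟨⟨0, hn0⟩⟩
  have hP := fun i => exists_eq_ciSup_of_finite
    (f := fun P : Fin m → Fin n => ⨅ j : Fin n, bundleValue (v i) P j)
  choose P hP using hP
  have hmm : ∀ i j, mms n (v i) ≤ bundleValue (v i) (P i) j := by
    intro i j
    unfold mms
    rw [← hP i]
    exact ciInf_le (Set.finite_range _).bddBelow j
  have hb : ∀ i (A : Fin m → Fin n) j, 0 ≤ bundleValue (v i) A j := fun i A j =>
    Finset.sum_nonneg fun g _ => hv i g
  by_cases h : 0 ≤ 1 - 3 / (r : ℝ)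
  · exact Pool.Agent.Lib.MP_5049a2_lc.reduction hn0 h
      (fun I => Pool.Agent.Lib.MP_5049a2_lc.ordered_main2 hr hn I) m v hv
      (fun i => mms n (v i)) P hmm
  · refine ⟨fun _ => ⟨0, hn0⟩, fun i => le_trans ?_ (hb i _ i)⟩
    refine mul_nonpos_of_nonpos_of_nonneg (not_le.1 h).le ?_
    unfold mms
    rw [← hP i]
    exact le_ciInf fun j => hb i _ j

end Pool.Agent.Variants.MP_5049a2_lc.PolylogRate
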